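import Pool.Agent.J4H43.PP.Stm
import Pool.Agent.J4H43.SW.Le

/-!
# The words that end with `y` determine a Lie element
-/

set_option autoImplicit false

namespace Pool.Agent.J4H13.PP

open Polynomial Pool.Agent.Helper392_GT Pool.Agent.J4H43.FR Pool.Agent.J4H43.SW
open Pool.Agent.J4H43.PP Pool.Agent.Helper771.FreeLieGrad

universe u

attribute [local instance 100] LieRing.ofAssociativeRing

section de

variable {k : Type u} [Field k]

/-- dual numbers version of the derivation `x ↦ 1`, `y ↦ 0` -/
noncomputable def xA : FreeAlgebra k (Fin 2) →ₐ[k] (FreeAlgebra k (Fin 2))[X] :=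
  FreeAlgebra.lift k ![C (FreeAlgebra.ι k 0) + X, C (FreeAlgebra.ι k 1)]

theorem xA_0 : xA (FreeAlgebra.ι k 0) = C (FreeAlgebra.ι k (0 : Fin 2)) + X := by
  rw [xA, FreeAlgebra.lift_ι_apply]; rfl

theorem xA_1 : xA (FreeAlgebra.ι k 1) = C (FreeAlgebra.ι k (1 : Fin 2)) := by
  rw [xA, FreeAlgebra.lift_ι_apply]; rfl

theorem xA_coeff_zero (b : FreeAlgebra k (Fin 2)) : (xA b).coeff 0 = b := by
  refine left_ind (fun b => (xA b).coeff 0 = b) ?_ ?_ ?_ ?_ b
  · rw [map_one, coeff_one_zero]
  · intro a b ha hb
    rw [map_add, coeff_add, ha, hb]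
  · intro c a ha
    rw [map_smul, coeff_smul, ha]
  · intro i a ha
    rw [map_mul, mul_coeff_zero, ha]
    fin_cases i
    · change (xA (FreeAlgebra.ι k 0)).coeff 0 * a = FreeAlgebra.ι k 0 * a
      rw [xA_0, coeff_add, coeff_C_zero, coeff_X_zero, add_zero]
    · change (xA (FreeAlgebra.ι k 1)).coeff 0 * a = FreeAlgebra.ι k 1 * a
      rw [xA_1, coeff_C_zero]

/-- the derivation `x ↦ 1`, `y ↦ 0` -/
noncomputable def dx : FreeAlgebra k (Fin 2) →ₗ[k] FreeAlgebra k (Fin 2) where
  toFun b := (xA b).coeff 1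
  map_add' a b := by rw [map_add, coeff_add]
  map_smul' c a := by rw [map_smul, coeff_smul, RingHom.id_apply]

theorem dx_apply (b : FreeAlgebra k (Fin 2)) : dx b = (xA b).coeff 1 := rfl

theorem dx_mul (a b : FreeAlgebra k (Fin 2)) : dx (a * b) = a * dx b + dx a * b := by
  rw [dx_apply, map_mul, mul_coeff_one, xA_coeff_zero, xA_coeff_zero]; rfl

theorem dx_0 : dx (FreeAlgebra.ι k (0 : Fin 2)) = 1 := by
  rw [dx_apply, xA_0, coeff_add, coeff_C_succ, coeff_X_one, zero_add]

theorem dx_1 : dx (FreeAlgebra.ι k (1 : Fin 2)) = 0 := by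
  rw [dx_apply, xA_1, coeff_C_succ]

theorem dx_one : dx (1 : FreeAlgebra k (Fin 2)) = 0 := by
  rw [dx_apply, map_one, coeff_one]; rfl

theorem dx_lie (σ : F2 k) : ∃ c : k, dx (toAssoc k σ) = c • 1 := by
  refine free_induction (P := fun σ => ∃ c : k, dx (toAssoc k σ) = c • 1) ?_ ?_ ?_ ?_ ?_ σ
  · intro y
    rw [toAssoc_of]
    fin_cases y
    · exact ⟨1, by rw [one_smul]; exact dx_0⟩
    · exact ⟨0, by rw [zero_smul]; exact dx_1⟩
  · exact ⟨0, by rw [map_zero, map_zero, zero_smul]⟩
  · rintro a b ⟨c, hc⟩ ⟨c', hc'⟩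
    exact ⟨c + c', by rw [map_add, map_add, hc, hc', add_smul]⟩
  · rintro r a ⟨c, hc⟩
    exact ⟨r * c, by rw [map_smul, map_smul, hc, mul_smul]⟩
  · rintro a b ⟨c, hc⟩ ⟨c', hc'⟩
    refine ⟨0, ?_⟩
    rw [toAssoc_lie, map_sub, dx_mul, dx_mul, hc, hc', zero_smul]
    rw [mul_smul_comm, mul_one, smul_mul_assoc, one_mul, mul_smul_comm, mul_one, smul_mul_assoc,
      one_mul]
    abel

/-- the sum over the insertions of one `x` -/
def ins : List (Fin 2) → (List (Fin 2) → k) → k
  | [], F => F [0]
  | (i :: u), F => F (0 :: i :: u) + ins u (fun w => F (i :: w))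

theorem ins_zero (u : List (Fin 2)) : ins u (fun _ => (0 : k)) = 0 := by
  induction u with
  | nil => rfl
  | cons i u ih => rw [ins, ih, add_zero]

theorem ins_add (u : List (Fin 2)) : ∀ F G : List (Fin 2) → k,
    ins u (fun w => F w + G w) = ins u F + ins u G := by
  induction u with
  | nil => intro F G; rfl
  | cons i u ih =>
    intro F G
    rw [ins, ins, ins, ih]
    ring

theorem ins_smul (c : k) (u : List (Fin 2)) : ∀ F : List (Fin 2) → k,
    ins u (fun w => c * F w) = c * ins u F := by
  induction u with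
  | nil => intro F; rfl
  | cons i u ih =>
    intro F
    rw [ins, ins, ih]
    ring

/-- the coefficient function -/
noncomputable def cf (b : FreeAlgebra k (Fin 2)) (l : List (Fin 2)) : k :=
  wc (FreeMonoid.ofList l) b

theorem ofList_cons' (i : Fin 2) (l : List (Fin 2)) :
    FreeMonoid.ofList (i :: l) = FreeMonoid.of i * FreeMonoid.ofList l := rfl

theorem cf_ι_mul (i j : Fin 2) (l : List (Fin 2)) (b : FreeAlgebra k (Fin 2)) :
    cf (FreeAlgebra.ι k i * b) (j :: l) = if i = j then cf b l else 0 := by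
  rw [cf, ofList_cons']
  by_cases h : i = j
  · subst h
    rw [wc_ι_mul, if_pos rfl]; rfl
  · rw [wc_ι_mul_ne h, if_neg h]

theorem cf_nil (i : Fin 2) (b : FreeAlgebra k (Fin 2)) : cf (FreeAlgebra.ι k i * b) [] = 0 :=
  wc_nil_ι_mul i b

theorem cf_dx (b : FreeAlgebra k (Fin 2)) : ∀ l, cf (dx b) l = ins l (cf b) := by
  classical
  refine left_ind (fun b => ∀ l, cf (dx b) l = ins l (cf b)) ?_ ?_ ?_ ?_ b
  · intro l
    rw [dx_one]
    have h0 : cf (0 : FreeAlgebra k (Fin 2)) l = 0 := by rw [cf, map_zero]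
    rw [h0]
    have h1 : ∀ (i : Fin 2) (w : List (Fin 2)), cf (1 : FreeAlgebra k (Fin 2)) (i :: w) = 0 := by
      intro i w
      rw [cf, ofList_cons', wc_unit, if_neg (of_mul_ne_one _ _)]
    cases l with
    | nil => rw [ins, h1]
    | cons i l =>
      rw [ins, h1, zero_add]
      have : (fun w => cf (1 : FreeAlgebra k (Fin 2)) (i :: w)) = fun _ => 0 := by
        funext w; exact h1 i w
      rw [this, ins_zero]
  · intro a b ha hb l
    have e1 : cf (dx (a + b)) l = cf (dx a) l + cf (dx b) l := by
      rw [cf, map_add, map_add]; rfl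
    have e2 : cf (a + b) = fun w => cf a w + cf b w := by
      funext w; rw [cf, map_add]; rfl
    rw [e1, e2, ins_add, ha, hb]
  · intro c a ha l
    have e1 : cf (dx (c • a)) l = c * cf (dx a) l := by
      rw [cf, map_smul, map_smul]; rfl
    have e2 : cf (c • a) = fun w => c * cf a w := by
      funext w; rw [cf, map_smul]; rfl
    rw [e1, e2, ins_smul, ha]
  · intro i a ha l
    have e0 : dx (FreeAlgebra.ι k i * a) = FreeAlgebra.ι k i * dx a + if i = 0 then a else 0 := by
      rw [dx_mul]
      congr 1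
      fin_cases i
      · change dx (FreeAlgebra.ι k 0) * a = _
        rw [dx_0, one_mul]; rfl
      · change dx (FreeAlgebra.ι k 1) * a = _
        rw [dx_1, zero_mul]; rfl
    have e1 : ∀ w, cf (if i = 0 then a else 0) w = if i = 0 then cf a w else 0 := by
      intro w
      split_ifs
      · rfl
      · rw [cf, map_zero]
    have e2 : ∀ w, cf (dx (FreeAlgebra.ι k i * a)) w = cf (FreeAlgebra.ι k i * dx a) w +
        if i = 0 then cf a w else 0 := by
      intro w
      rw [e0, ← e1, cf, map_add]; rfl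
    rw [e2]
    cases l with
    | nil =>
      rw [cf_nil, zero_add, ins, cf_ι_mul]
    | cons j l =>
      rw [cf_ι_mul, ins, cf_ι_mul, add_comm]
      congr 1
      have : (fun w => cf (FreeAlgebra.ι k i * a) (j :: w)) = fun w => if i = j then cf a w else 0 := by
        funext w; exact cf_ι_mul i j w a
      rw [this]
      by_cases h : i = j
      · simp only [if_pos h]
        exact ha l
      · simp only [if_neg h]
        rw [ins_zero]

theorem ins_lie (σ : F2 k) {l : List (Fin 2)} (hl : l ≠ []) :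
    ins l (cf (toAssoc k σ)) = 0 := by
  classical
  obtain ⟨c, hc⟩ := dx_lie σ
  rw [← cf_dx, hc]
  cases l with
  | nil => exact absurd rfl hl
  | cons i l =>
    rw [cf, map_smul, ofList_cons', wc_unit, if_neg (of_mul_ne_one _ _), smul_zero]

theorem ins_rep (m : ℕ) : ∀ F : List (Fin 2) → k,
    ins (List.replicate m 0) F = (m + 1 : ℕ) * F (List.replicate (m + 1) 0) := by
  induction m with
  | zero =>
    intro F
    change F [0] = ((0 + 1 : ℕ) : k) * F [0]
    rw [zero_add, Nat.cast_one, one_mul]
  | succ m ih =>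
    intro F
    rw [List.replicate_succ, ins, ih]
    have : (0 : Fin 2) :: List.replicate (m + 1) 0 = List.replicate (m + 1 + 1) 0 := rfl
    have h2 : (0 : Fin 2) :: 0 :: List.replicate m 0 = List.replicate (m + 1 + 1) 0 := rfl
    rw [this, h2]
    push_cast
    ring

theorem ins_word (m : ℕ) : ∀ (w : List (Fin 2)) (F : List (Fin 2) → k),
    (∀ w', w'.count 1 = w.count 1 → w'.length = w.length + 1 →
      F (w' ++ 1 :: List.replicate m 0) = 0) →
    ins (w ++ 1 :: List.replicate m 0) F = (m + 1 : ℕ) * F (w ++ 1 :: List.replicate (m + 1) 0) := by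
  intro w
  induction w with
  | nil =>
    intro F hF
    rw [List.nil_append, ins, ins_rep]
    have h1 := hF [0] (by decide) rfl
    have h2 : (0 : Fin 2) :: 1 :: List.replicate m 0 = [0] ++ 1 :: List.replicate m 0 := rfl
    rw [h2, h1, zero_add]; rfl
  | cons i w ih =>
    intro F hF
    rw [List.cons_append, ins, ih]
    · have h1 := hF (0 :: i :: w) (by
        rw [List.count_cons_of_ne (by decide)]) rfl
      have h2 : (0 : Fin 2) :: i :: (w ++ 1 :: List.replicate m 0) =
        (0 :: i :: w) ++ 1 :: List.replicate m 0 := rfl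
      rw [h2, h1, zero_add]; rfl
    · intro w' h1 h2
      have h3 := hF (i :: w') (by rw [List.count_cons, List.count_cons, h1])
        (by rw [List.length_cons, List.length_cons, h2])
      exact h3

theorem split_last : ∀ w : List (Fin 2), 1 ∈ w →
    ∃ (v : List (Fin 2)) (m : ℕ), w = v ++ 1 :: List.replicate m 0 := by
  intro w
  induction w using List.reverseRecOn with
  | nil => intro h; exact absurd h (List.not_mem_nil)
  | append_singleton w a ih =>
    intro h
    fin_cases a
    · have h1 : 1 ∈ w := by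
        rcases List.mem_append.mp h with h | h
        · exact h
        · simp at h
      obtain ⟨v, m, hv⟩ := ih h1
      refine ⟨v, m + 1, ?_⟩
      rw [hv, List.append_assoc, List.cons_append, List.replicate_succ']
      rfl
    · exact ⟨w, 0, rfl⟩

theorem key [CharZero k] {N r : ℕ} {f : F2 k}
    (h : ∀ w : List (Fin 2), w.count 1 + 1 = r → w.length + 1 = N →
      cf (toAssoc k f) (w ++ [1]) = 0) (m : ℕ) : ∀ w : List (Fin 2), w.count 1 + 1 = r →
      w.length + 1 + m = N → cf (toAssoc k f) (w ++ 1 :: List.replicate m 0) = 0 := by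
  induction m with
  | zero => intro w h1 h2; exact h w h1 (by omega)
  | succ m ih =>
    intro w h1 h2
    have h3 := ins_word m w (cf (toAssoc k f)) (by
      intro w' h4 h5
      exact ih w' (by omega) (by omega))
    rw [ins_lie f (by simp)] at h3
    have h4 : ((m + 1 : ℕ) : k) ≠ 0 := Nat.cast_ne_zero.mpr (by omega)
    rcases mul_eq_zero.mp h3.symm with h5 | h5
    · exact absurd h5 h4
    · exact h5

end de

theorem t_END : S_END.{u} := by
  intro k _ _ N r _ _ f hf hd h w hw
  rcases Nat.lt_or_ge (w.toList.count 1) r with h1 | h1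
  · exact hd w h1
  have hc1 : w.toList.count 1 = r := by omega
  rw [wordCoeff_eq]
  by_cases hl : w.length = N
  · have hmem : 1 ∈ w.toList := List.count_pos_iff.mp (by omega)
    obtain ⟨v, m, hv⟩ := split_last w.toList hmem
    have h2 : v.count 1 + 1 = r := by
      rw [← hc1, hv, List.count_append, List.count_cons_self, List.count_replicate]
      simp
    have h3 : v.length + 1 + m = N := by
      have : w.length = w.toList.length := rfl
      rw [← hl, this, hv]
      simp
      omega
    have h4 := key (f := f) (N := N) (r := r) (by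
      intro u hu1 hu2
      exact h (FreeMonoid.ofList u) hu1 hu2) m v h2 h3
    rw [← hv] at h4
    exact h4
  · have h5 := (Hm_wt hf).self
    rw [← h5, wc_hc, if_neg hl]

end Pool.Agent.J4H13.PP
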