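import Pool.Agent.J4H43.PP.Stm

/-!
# The upper bound for the depth graded pieces
-/

set_option autoImplicit false

namespace Pool.Agent.J4H13.PP

open Pool.Agent.Helper392_GT Pool.Agent.J4H43.FR Pool.Agent.J4H43.SW Pool.Agent.J4H43.PP

universe u

attribute [local instance 100] LieRing.ofAssociativeRing

section up

variable {k : Type u} [Field k]

theorem wt_fin : ∀ N : ℕ, Module.Finite k (wt k N)
  | 0 => by
    change Module.Finite k (⊥ : Submodule k (F2 k))
    infer_instance
  | 1 => by
    change Module.Finite k (Submodule.span k {FreeLieAlgebra.of k (0 : Fin 2), FreeLieAlgebra.of k 1})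
    exact Module.Finite.span_of_finite k (by simp)
  | (n + 2) => by
    have ih := wt_fin (n + 1)
    rw [Module.Finite.iff_fg] at ih ⊢
    have h1 : wt k (n + 2) = (wt k (n + 1)).map (LieAlgebra.ad k (F2 k) (FreeLieAlgebra.of k 0)) ⊔
        (wt k (n + 1)).map (LieAlgebra.ad k (F2 k) (FreeLieAlgebra.of k 1)) := by
      apply le_antisymm
      · change Submodule.span k _ ≤ _
        rw [Submodule.span_le]
        rintro v ⟨u, hu, rfl | rfl⟩
        · exact Submodule.mem_sup_left ⟨u, hu, rfl⟩
        · exact Submodule.mem_sup_right ⟨u, hu, rfl⟩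
      · apply sup_le
        · rintro v ⟨u, hu, rfl⟩
          exact Submodule.subset_span ⟨u, hu, Or.inl rfl⟩
        · rintro v ⟨u, hu, rfl⟩
          exact Submodule.subset_span ⟨u, hu, Or.inr rfl⟩
    rw [h1]
    exact (ih.map _).sup (ih.map _)

/-- the word of a subset -/
def wdS (n : ℕ) (s : Finset (Fin n)) : FreeMonoid (Fin 2) :=
  FreeMonoid.ofList (List.ofFn fun i => if i ∈ s then 1 else 0)

theorem exists_wdS (w : FreeMonoid (Fin 2)) {n c : ℕ} (hn : w.length = n)
    (hc : w.toList.count 1 = c) : ∃ s ∈ Finset.powersetCard c (Finset.univ : Finset (Fin n)),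
      wdS n s = w := by
  obtain ⟨l, hl⟩ : ∃ l : List (Fin 2), l = w.toList := ⟨_, rfl⟩
  have hn' : l.length = n := by rw [hl]; exact hn
  subst hn'
  refine ⟨Finset.univ.filter fun i : Fin l.length => l.get i = 1, ?_, ?_⟩
  · rw [Finset.mem_powersetCard_univ, ← hc, ← hl]
    exact Fin.card_filter_univ_eq_vector_get_eq_count 1 (⟨l, rfl⟩ : List.Vector (Fin 2) l.length)
  · have : (List.ofFn fun i : Fin l.length => if i ∈ (Finset.univ.filter fun i : Fin l.length =>
        l.get i = 1) then (1 : Fin 2) else 0) = l := by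
      conv_rhs => rw [← List.ofFn_get l]
      congr 1
      funext i
      simp only [Finset.mem_filter, Finset.mem_univ, true_and]
      split_ifs with h
      · exact h.symm
      · omega
    rw [wdS, this, hl]
    rfl

/-- the coefficients at the words that end with `y` -/
noncomputable def Phi (V : Submodule k (F2 k)) (N r : ℕ) : pc V N r →ₗ[k]
    ((Finset.powersetCard (r - 1) (Finset.univ : Finset (Fin (N - 1)))) → k) where
  toFun f s := wordCoeff k f.1 (wdS (N - 1) s.1 * FreeMonoid.of 1)
  map_add' f g := by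
    funext s
    rw [Pi.add_apply, wordCoeff_eq, wordCoeff_eq, wordCoeff_eq, Submodule.coe_add, map_add, map_add]
  map_smul' c f := by
    funext s
    rw [Pi.smul_apply, wordCoeff_eq, wordCoeff_eq, Submodule.coe_smul, map_smul, map_smul,
      RingHom.id_apply]

end up

theorem t_UP : S_END.{u} → S_UP.{u} := by
  intro hE k _ _ V N r hN hr
  refine ⟨wt_fin N, ?_⟩
  have hker : LinearMap.ker (Phi V N r) ≤ (pc V N (r + 1)).submoduleOf (pc V N r) := by
    intro f hf
    rw [LinearMap.mem_ker] at hf
    change f.1 ∈ pc V N (r + 1)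
    refine ⟨f.2.1, ?_⟩
    refine hE k N r hN hr f.1 f.2.1.2 f.2.2 ?_
    intro w h1 h2
    obtain ⟨s, hs, hw⟩ := exists_wdS w (n := N - 1) (c := r - 1) (by omega) (by
      have : w.toList.count 1 = (FreeMonoid.toList w).count 1 := rfl
      omega)
    have h3 := congrFun hf ⟨s, hs⟩
    rw [← hw]
    exact h3
  have hfin : Module.Finite k (pc V N r ⧸ LinearMap.ker (Phi V N r)) :=
    Module.Finite.equiv (LinearMap.quotKerEquivRange (Phi V N r)).symm
  have h1 : Module.finrank k (pc V N r ⧸ (pc V N (r + 1)).submoduleOf (pc V N r)) ≤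
      Module.finrank k (pc V N r ⧸ LinearMap.ker (Phi V N r)) :=
    LinearMap.finrank_le_finrank_of_surjective (f := Submodule.factor hker)
      (Submodule.factor_surjective hker)
  have h2 : Module.finrank k (pc V N r ⧸ LinearMap.ker (Phi V N r)) =
      Module.finrank k (LinearMap.range (Phi V N r)) :=
    LinearEquiv.finrank_eq (LinearMap.quotKerEquivRange (Phi V N r))
  have h3 := Submodule.finrank_le (LinearMap.range (Phi V N r))
  rw [Module.finrank_fintype_fun_eq_card, Fintype.card_coe, Finset.card_powersetCard,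
    Finset.card_univ, Fintype.card_fin] at h3
  rw [dimG]
  omega

end Pool.Agent.J4H13.PP
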